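import Mathlib

set_option autoImplicit false
set_option linter.unusedSectionVars false
open Set Topology

namespace Pool.Agent.TH802.JonesT

variable {S : Type*} [TopologicalSpace S]

/-- Jones's set function. -/
def T (A : Set S) : Set S :=
  {p | ∀ W : Set S, IsClosed W → IsConnected W → p ∈ interior W → (W ∩ A).Nonempty}

theorem subset_T (A : Set S) : A ⊆ T A := fun p hp _W _ _ hpW => ⟨p, interior_subset hpW, hp⟩

theorem T_mono {A B : Set S} (h : A ⊆ B) : T A ⊆ T B := fun _p hp W h1 h2 h3 =>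
  (hp W h1 h2 h3).mono (inter_subset_inter_right _ h)

theorem not_mem_T {A : Set S} {p : S} :
    p ∉ T A ↔ ∃ W : Set S, IsClosed W ∧ IsConnected W ∧ p ∈ interior W ∧ W ∩ A = ∅ := by
  simp only [T, mem_ofPred_eq, not_forall, not_nonempty_iff_eq_empty]
  constructor
  · rintro ⟨W, a, b, c, d⟩; exact ⟨W, a, b, c, d⟩
  · rintro ⟨W, a, b, c, d⟩; exact ⟨W, a, b, c, d⟩

theorem isClosed_T (A : Set S) : IsClosed (T A) := by
  rw [← isOpen_compl_iff, isOpen_iff_mem_nhds]
  intro p hp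
  obtain ⟨W, h1, h2, h3, h4⟩ := not_mem_T.1 hp
  refine Filter.mem_of_superset (isOpen_interior.mem_nhds h3) ?_
  intro q hq
  exact not_mem_T.2 ⟨W, h1, h2, hq, h4⟩

theorem T_empty [ConnectedSpace S] : T (∅ : Set S) = ∅ := by
  ext p
  simp only [mem_empty_iff_false, iff_false]
  exact not_mem_T.2 ⟨univ, isClosed_univ, isConnected_univ, by simp, by simp⟩

/-- the consequences of Vietoris continuity of `T` that we use -/
structure TC (S : Type*) [TopologicalSpace S] : Prop where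
  dens : ∀ A D G : Set S, IsClosed A → A.Nonempty → D ⊆ A → A ⊆ closure D → IsOpen G →
    (T A ∩ G).Nonempty → ∃ F : Set S, F.Finite ∧ F.Nonempty ∧ F ⊆ D ∧ (T F ∩ G).Nonempty
  usc : ∀ (F : Set S) (b : S) (G : Set S), F.Finite → IsOpen G → T (insert b F) ⊆ G →
    ∀ᶠ b' in 𝓝 b, T (insert b' F) ⊆ G
  lsc : ∀ (F : Set S) (b : S) (G : Set S), F.Finite → IsOpen G → (T (insert b F) ∩ G).Nonempty →
    ∀ᶠ b' in 𝓝 b, (T (insert b' F) ∩ G).Nonempty

section gap
variable [CompactSpace S] [T2Space S]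

/-- a closed set all of whose relatively clopen subsets meet one of finitely many connected
sets has, around each of its points, a connected relatively clopen subset. -/
theorem clopen_piece {Y : Set S} (𝒲 : Set (Set S)) (hfin : 𝒲.Finite)
    (hconn : ∀ W ∈ 𝒲, IsPreconnected W) (hsub : ∀ W ∈ 𝒲, W ⊆ Y)
    (hY : IsClosed Y)
    (hstar : ∀ C ⊆ Y, IsClosed C → IsClosed (Y \ C) → C.Nonempty → ∃ W ∈ 𝒲, (C ∩ W).Nonempty)
    {q : S} (hq : q ∈ Y) :
    ∃ C ⊆ Y, IsClosed C ∧ IsClosed (Y \ C) ∧ q ∈ C ∧ IsConnected C := by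
  classical
  -- measure
  let P : Set S → Prop := fun C => C ⊆ Y ∧ IsClosed C ∧ IsClosed (Y \ C) ∧ q ∈ C
  have hP : ∃ n : ℕ, ∃ C, P C ∧ {W ∈ 𝒲 | (C ∩ W).Nonempty}.ncard = n :=
    ⟨_, Y, ⟨Subset.rfl, hY, by simp, hq⟩, rfl⟩
  obtain ⟨C, ⟨hC1, hC2, hC3, hC4⟩, hCn⟩ := Nat.find_spec hP
  refine ⟨C, hC1, hC2, hC3, hC4, ⟨q, hC4⟩, ?_⟩
  rw [isPreconnected_iff_subset_of_fully_disjoint_closed hC2]
  intro u v hu hv huv hdisj
  by_contra hcon
  push Not at hcon
  -- general claim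
  have key : ∀ u v : Set S, IsClosed u → IsClosed v → C ⊆ u ∪ v → Disjoint u v → q ∈ u →
      ¬ C ⊆ u → False := by
    intro u v hu hv huv hdisj hqu hnot
    have hP' : P (C ∩ u) := by
      refine ⟨inter_subset_left.trans hC1, hC2.inter hu, ?_, hC4, hqu⟩
      have : Y \ (C ∩ u) = (Y \ C) ∪ (C ∩ v) := by
        ext x
        simp only [mem_sdiff, mem_inter_iff, mem_union, not_and]
        constructor
        · rintro ⟨hx, hx2⟩
          by_cases hxC : x ∈ C
          · right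
            refine ⟨hxC, ?_⟩
            rcases huv hxC with h | h
            · exact absurd h (hx2 hxC)
            · exact h
          · left; exact ⟨hx, hxC⟩
        · rintro (⟨hx, hx2⟩ | ⟨hx, hx2⟩)
          · exact ⟨hx, fun h => absurd h hx2⟩
          · exact ⟨hC1 hx, fun _ hxu => (disjoint_left.1 hdisj) hxu hx2⟩
      rw [this]
      exact hC3.union (hC2.inter hv)
    -- the other part is nonempty clopen, contains some W
    have hne : (C ∩ v).Nonempty := by
      obtain ⟨x, hxC, hxu⟩ := not_subset.1 hnot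
      rcases huv hxC with h | h
      · exact absurd h hxu
      · exact ⟨x, hxC, h⟩
    have hcl : IsClosed (Y \ (C ∩ v)) := by
      have : Y \ (C ∩ v) = (Y \ C) ∪ (C ∩ u) := by
        ext x
        simp only [mem_sdiff, mem_inter_iff, mem_union, not_and]
        constructor
        · rintro ⟨hx, hx2⟩
          by_cases hxC : x ∈ C
          · right
            refine ⟨hxC, ?_⟩
            rcases huv hxC with h | h
            · exact h
            · exact absurd h (hx2 hxC)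
          · left; exact ⟨hx, hxC⟩
        · rintro (⟨hx, hx2⟩ | ⟨hx, hx2⟩)
          · exact ⟨hx, fun h => absurd h hx2⟩
          · exact ⟨hC1 hx, fun _ hxv => (disjoint_left.1 hdisj) hx2 hxv⟩
      rw [this]
      exact hC3.union (hC2.inter hu)
    obtain ⟨W, hW, w, hwC, hwW⟩ := hstar (C ∩ v) (inter_subset_left.trans hC1) (hC2.inter hv) hcl hne
    have hWnot : ¬ ((C ∩ u) ∩ W).Nonempty := by
      rintro ⟨x, ⟨hxC, hxu⟩, hxW⟩
      -- W ⊆ C ∩ v ∪ (Y \ (C ∩ v))
      have h1 := (isPreconnected_closed_iff.1 (hconn W hW)) (C ∩ v) (Y \ (C ∩ v)) (hC2.inter hv) hcl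
        (fun y hy => by
          by_cases h : y ∈ C ∩ v
          · exact Or.inl h
          · exact Or.inr ⟨hsub W hW hy, h⟩)
        ⟨w, hwW, hwC⟩ ⟨x, hxW, hC1 hxC, fun h => (disjoint_left.1 hdisj) hxu h.2⟩
      obtain ⟨y, _, hy1, hy2⟩ := h1
      exact hy2.2 hy1
    have hlt : {W ∈ 𝒲 | ((C ∩ u) ∩ W).Nonempty}.ncard < {W ∈ 𝒲 | (C ∩ W).Nonempty}.ncard := by
      apply Set.ncard_lt_ncard
      · rw [Set.ssubset_iff_of_subset]
        · exact ⟨W, ⟨hW, ⟨w, hwC.1, hwW⟩⟩, fun h => hWnot h.2⟩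
        · rintro W' ⟨h1, h2⟩
          exact ⟨h1, h2.mono (inter_subset_inter_left _ inter_subset_left)⟩
      · exact hfin.subset (fun W' h => h.1)
    rw [hCn] at hlt
    exact Nat.find_min hP hlt ⟨C ∩ u, hP', rfl⟩
  rcases huv hC4 with h | h
  · exact key u v hu hv huv hdisj h hcon.1
  · exact key v u hv hu (by rwa [union_comm]) hdisj.symm h hcon.2

/-- boundary bumping in the form needed -/
theorem gap_piece {W U : Set S} {q : S} (hWc : IsClosed W) (hW : IsConnected W)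
    (hU : IsOpen U) (hqW : q ∈ interior W) (hqU : q ∈ U) (𝒲 : Set (Set S)) (hfin : 𝒲.Finite)
    (hcl : ∀ V ∈ 𝒲, IsClosed V) (hconn : ∀ V ∈ 𝒲, IsPreconnected V)
    (hcov : frontier U ⊆ ⋃₀ 𝒲) :
    ∃ W' : Set S, IsClosed W' ∧ IsConnected W' ∧ q ∈ interior W' ∧
      W' ⊆ (W ∩ closure U) ∪ ⋃₀ 𝒲 := by
  by_cases hWU : W ⊆ U
  · exact ⟨W, hWc, hW, hqW, fun x hx => Or.inl ⟨hx, subset_closure (hWU hx)⟩⟩
  set Y := (W ∩ closure U) ∪ ⋃₀ 𝒲 with hYdef
  have hZ : IsClosed (⋃₀ 𝒲) := by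
    rw [sUnion_eq_biUnion]
    exact hfin.isClosed_biUnion hcl
  have hY : IsClosed Y := (hWc.inter isClosed_closure).union hZ
  have hqY : q ∈ Y := Or.inl ⟨interior_subset hqW, subset_closure hqU⟩
  have hstar : ∀ C ⊆ Y, IsClosed C → IsClosed (Y \ C) → C.Nonempty →
      ∃ V ∈ 𝒲, (C ∩ V).Nonempty := by
    intro C hCY hC1 hC2 hCne
    by_contra hno
    push Not at hno
    have hCZ : ∀ x ∈ C, x ∉ ⋃₀ 𝒲 := by
      rintro x hx ⟨V, hV, hxV⟩
      exact (eq_empty_iff_forall_notMem.1 (hno V hV)) x ⟨hx, hxV⟩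
    have hCW : C ⊆ W ∩ U := by
      intro x hx
      rcases hCY hx with h | h
      · refine ⟨h.1, ?_⟩
        by_contra hxU
        exact hCZ x hx (hcov ⟨h.2, by rwa [hU.interior_eq]⟩)
      · exact absurd h (hCZ x hx)
    have hcomp : W \ C = (W ∩ (Y \ C)) ∪ (W \ U) := by
      ext x
      constructor
      · rintro ⟨hxW, hxC⟩
        by_cases hxU : x ∈ U
        · exact Or.inl ⟨hxW, Or.inl ⟨hxW, subset_closure hxU⟩, hxC⟩
        · exact Or.inr ⟨hxW, hxU⟩
      · rintro (⟨hxW, _, hxC⟩ | ⟨hxW, hxU⟩)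
        · exact ⟨hxW, hxC⟩
        · exact ⟨hxW, fun h => hxU (hCW h).2⟩
    have hcomp' : IsClosed (W \ C) := by
      rw [hcomp]
      exact (hWc.inter hC2).union (hWc.sdiff hU)
    obtain ⟨c, hc⟩ := hCne
    obtain ⟨w, hwW, hwU⟩ := not_subset.1 hWU
    obtain ⟨y, _, hy1, hy2⟩ := (isPreconnected_closed_iff.1 hW.2) C (W \ C) hC1 hcomp'
      (fun y hy => by
        by_cases h : y ∈ C
        · exact Or.inl h
        · exact Or.inr ⟨hy, h⟩)
      ⟨c, (hCW hc).1, hc⟩ ⟨w, hwW, hwW, fun h => hwU (hCW h).2⟩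
    exact hy2.2 hy1
  obtain ⟨C, hC1, hC2, hC3, hC4, hC5⟩ := clopen_piece 𝒲 hfin hconn
    (fun V hV x hx => Or.inr ⟨V, hV, hx⟩) hY hstar hqY
  refine ⟨C, hC2, hC5, ?_, hC1⟩
  rw [mem_interior]
  refine ⟨(interior W ∩ U) ∩ (Y \ C)ᶜ, ?_, (isOpen_interior.inter hU).inter hC3.isOpen_compl,
    ⟨hqW, hqU⟩, fun h => h.2 hC4⟩
  rintro x ⟨⟨hx1, hx2⟩, hx3⟩
  by_contra hxC
  exact hx3 ⟨Or.inl ⟨interior_subset hx1, subset_closure hx2⟩, hxC⟩

/-- Gap lemma. -/
theorem gap {A B U : Set S} (hU : IsOpen U) (hfr : Disjoint (frontier U) (T (A ∪ B)))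
    (hB : Disjoint B (closure U)) : T (A ∪ B) ∩ U ⊆ T A := by
  rintro q ⟨hq, hqU⟩
  by_contra hqA
  obtain ⟨W, hW1, hW2, hW3, hW4⟩ := not_mem_T.1 hqA
  have hfc : IsCompact (frontier U) := isClosed_frontier.isCompact
  have hx : ∀ x ∈ frontier U, ∃ V : Set S, IsClosed V ∧ IsConnected V ∧ x ∈ interior V ∧
      V ∩ (A ∪ B) = ∅ := fun x hx => not_mem_T.1 (disjoint_left.1 hfr hx)
  choose! V hV1 hV2 hV3 hV4 using hx
  obtain ⟨t, ht⟩ := hfc.elim_nhds_subcover' (fun x _ => interior (V x))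
    (fun x hx => isOpen_interior.mem_nhds (hV3 x hx))
  have hWt : ∀ W' ∈ (fun x : frontier U => V x) '' (t : Set (frontier U)), ∃ x ∈ frontier U, W' = V x := by
    rintro _ ⟨x, hx, rfl⟩
    exact ⟨x, x.2, rfl⟩
  obtain ⟨W', h1, h2, h3, h4⟩ := gap_piece hW1 hW2 hU hW3 hqU
    ((fun x : frontier U => V x) '' (t : Set (frontier U))) (t.finite_toSet.image _)
    (fun W' hW' => by obtain ⟨x, hx, rfl⟩ := hWt W' hW'; exact hV1 x hx)
    (fun W' hW' => by obtain ⟨x, hx, rfl⟩ := hWt W' hW'; exact (hV2 x hx).2)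
    (fun x hx => by
      obtain ⟨y, hy, hxy⟩ := mem_iUnion₂.1 (ht hx)
      exact ⟨V y, ⟨y, hy, rfl⟩, interior_subset hxy⟩)
  obtain ⟨z, hz1, hz2⟩ := hq W' h1 h2 h3
  rcases h4 hz1 with h | ⟨V', hV', hzV⟩
  · rcases hz2 with hz2 | hz2
    · exact (eq_empty_iff_forall_notMem.1 hW4) z ⟨h.1, hz2⟩
    · exact disjoint_left.1 hB hz2 h.2
  · obtain ⟨x, hx, rfl⟩ := hWt V' hV'
    exact (eq_empty_iff_forall_notMem.1 (hV4 x hx)) z ⟨hzV, hz2⟩

/-- one-sided separation -/
theorem gap' {A B U V : Set S} (hU : IsOpen U) (hV : IsOpen V) (hUV : Disjoint (closure U) (closure V))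
    (hT : T (A ∪ B) ⊆ U ∪ V) (hB : B ⊆ V) : T (A ∪ B) ∩ U ⊆ T A := by
  apply gap hU
  · rw [disjoint_left]
    rintro x ⟨hx1, hx2⟩ hx
    rw [hU.interior_eq] at hx2
    rcases hT hx with h | h
    · exact hx2 h
    · exact disjoint_left.1 hUV hx1 (subset_closure h)
  · rw [disjoint_left]
    intro x hx hx'
    exact disjoint_left.1 hUV hx' (subset_closure (hB hx))

theorem sep {A B U V : Set S} (hU : IsOpen U) (hV : IsOpen V) (hUV : Disjoint (closure U) (closure V))
    (hT : T (A ∪ B) ⊆ U ∪ V) (hA : A ⊆ U) (hB : B ⊆ V) : T (A ∪ B) = T A ∪ T B := by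
  apply Subset.antisymm
  · intro x hx
    rcases hT hx with h | h
    · exact Or.inl (gap' hU hV hUV hT hB ⟨hx, h⟩)
    · right
      have := gap' (A := B) (B := A) hV hU hUV.symm (by rwa [union_comm, union_comm V U]) hA
      exact this ⟨by rwa [union_comm], h⟩
  · exact union_subset (T_mono subset_union_left) (T_mono subset_union_right)

/-- disjoint closed sets have open neighbourhoods with disjoint closures -/
theorem sep_nhds {P R : Set S} (hP : IsClosed P) (hR : IsClosed R) (h : Disjoint P R) :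
    ∃ U V : Set S, IsOpen U ∧ IsOpen V ∧ P ⊆ U ∧ R ⊆ V ∧ Disjoint (closure U) (closure V) := by
  obtain ⟨U, hU, hPU, hUR⟩ := normal_exists_closure_subset hP hR.isOpen_compl
    (subset_compl_iff_disjoint_right.2 h)
  obtain ⟨V, hV, hRV, hVU⟩ := normal_exists_closure_subset hR (isClosed_closure (s := U)).isOpen_compl
    (subset_compl_comm.1 hUR)
  exact ⟨U, V, hU, hV, hPU, hRV, (subset_compl_iff_disjoint_right.1 hVU).symm⟩

end gap

section sym
variable [CompactSpace S] [T2Space S] [ConnectedSpace S] (hc : TC S)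
include hc

theorem T_compl {W : Set S} (hWc : IsClosed W) (hW : IsConnected W) :
    T (closure Wᶜ) ⊆ (interior W)ᶜ := by
  intro z hz hzW
  rcases (Wᶜ).eq_empty_or_nonempty with h | h
  · rw [h, closure_empty, T_empty] at hz
    exact hz
  · obtain ⟨F, _, _, hF3, y, hy1, hy2⟩ := hc.dens (closure Wᶜ) Wᶜ (interior W) isClosed_closure
      h.closure subset_closure Subset.rfl isOpen_interior ⟨z, hz, hzW⟩
    obtain ⟨w, hw1, hw2⟩ := hy1 W hWc hW hy2
    exact hF3 hw2 hw1

theorem T_T (A : Set S) : T (T A) ⊆ T A := by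
  intro z hz
  by_contra hzA
  obtain ⟨W, h1, h2, h3, h4⟩ := not_mem_T.1 hzA
  have hsub : T A ⊆ closure Wᶜ := by
    rw [closure_compl]
    intro y hy hyW
    obtain ⟨w, hw⟩ := hy W h1 h2 hyW
    exact (eq_empty_iff_forall_notMem.1 h4) w hw
  exact T_compl hc h1 h2 (T_mono hsub hz) h3

theorem T_sub {x y : S} (h : y ∈ T {x}) : T {y} ⊆ T {x} :=
  (T_mono (singleton_subset_iff.2 h)).trans (T_T hc _)

theorem usc1 (x : S) {G : Set S} (hG : IsOpen G) (h : T {x} ⊆ G) : ∀ᶠ y in 𝓝 x, T {y} ⊆ G := by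
  have := hc.usc ∅ x G finite_empty hG (by simpa using h)
  simpa using this

theorem lsc1 (x : S) {G : Set S} (hG : IsOpen G) (h : (T {x} ∩ G).Nonempty) :
    ∀ᶠ y in 𝓝 x, (T {y} ∩ G).Nonempty := by
  have := hc.lsc ∅ x G finite_empty hG (by simpa using h)
  simpa using this

theorem T_preconnected (x : S) : IsPreconnected (T {x}) := by
  rw [isPreconnected_iff_subset_of_fully_disjoint_closed (isClosed_T _)]
  have key : ∀ u v : Set S, IsClosed u → IsClosed v → T {x} ⊆ u ∪ v → Disjoint u v → x ∈ v →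
      T {x} ⊆ v := by
    intro u v hu hv huv hd hxv
    obtain ⟨U, V, hU, hV, huU, hvV, hUV⟩ := sep_nhds hu hv hd
    have h1 : T (∅ ∪ {x}) ⊆ U ∪ V := by
      rw [empty_union]
      exact huv.trans (union_subset_union huU hvV)
    have h2 := gap' hU hV hUV h1 (singleton_subset_iff.2 (hvV hxv))
    rw [empty_union, T_empty] at h2
    intro y hy
    rcases huv hy with h | h
    · exact absurd (h2 ⟨hy, huU h⟩) (notMem_empty _)
    · exact h
  intro u v hu hv huv hd
  rcases huv (subset_T _ rfl) with h | h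
  · left; exact key v u hv hu (by rwa [union_comm]) hd.symm h
  · right; exact key u v hu hv huv hd h

/-- minimal points -/
def Mn (S : Type*) [TopologicalSpace S] : Set S := {m | ∀ y ∈ T {m}, T {y} = T {m}}

theorem exists_min (x : S) : ∃ m ∈ T {x}, m ∈ Mn S := by
  obtain ⟨M, hM⟩ := zorn_superset {K : Set S | ∃ y ∈ T {x}, K = T {y}} (by
    intro c hcS hch
    rcases c.eq_empty_or_nonempty with rfl | hne
    · exact ⟨T {x}, ⟨x, subset_T _ rfl, rfl⟩, by simp⟩
    · have hint : (⋂₀ c).Nonempty := by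
        haveI : Nonempty c := hne.to_subtype
        apply IsCompact.nonempty_sInter_of_directed_nonempty_isCompact_isClosed
        · intro a ha b hb
          rcases hch.total ha hb with h | h
          · exact ⟨a, ha, Subset.rfl, h⟩
          · exact ⟨b, hb, h, Subset.rfl⟩
        · intro K hK
          obtain ⟨y, _, rfl⟩ := hcS hK
          exact ⟨y, subset_T _ rfl⟩
        · intro K hK
          obtain ⟨y, _, rfl⟩ := hcS hK
          exact (isClosed_T _).isCompact
        · intro K hK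
          obtain ⟨y, _, rfl⟩ := hcS hK
          exact isClosed_T _
      obtain ⟨z, hz⟩ := hint
      have hz' : ∀ K ∈ c, T {z} ⊆ K := by
        intro K hK
        have := hz K hK
        obtain ⟨y, _, rfl⟩ := hcS hK
        exact T_sub hc this
      refine ⟨T {z}, ⟨z, ?_, rfl⟩, hz'⟩
      obtain ⟨K, hK⟩ := hne
      have hzK := hz K hK
      obtain ⟨y, hy, rfl⟩ := hcS hK
      exact T_sub hc hy hzK)
  obtain ⟨⟨m, hmx, rfl⟩, hmin⟩ := hM
  refine ⟨m, hmx, fun y hy => ?_⟩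
  have h1 : T {y} ⊆ T {m} := T_sub hc hy
  exact Subset.antisymm h1 (hmin ⟨y, T_sub hc hmx hy, rfl⟩ h1)

theorem isClosed_Mn : IsClosed (Mn S) := by
  rw [← isOpen_compl_iff, isOpen_iff_eventually]
  intro m hm
  simp only [Mn, mem_compl_iff, mem_ofPred_eq, not_forall] at hm
  obtain ⟨y, hy, hne⟩ := hm
  have hmy : m ∉ T {y} := fun h => hne (Subset.antisymm (T_sub hc hy) (T_sub hc h))
  obtain ⟨U, V, hU, hV, hyU, hmV, hUV⟩ := sep_nhds (isClosed_T {y}) (isClosed_singleton (x := m))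
    (disjoint_singleton_right.2 hmy)
  have hO : IsOpen {z : S | T {z} ⊆ U} := isOpen_iff_eventually.2 fun z hz => usc1 hc z hU hz
  have h1 := lsc1 hc m hO ⟨y, hy, hyU⟩
  have h2 : ∀ᶠ m' in 𝓝 m, m' ∈ V := hV.mem_nhds (hmV rfl)
  filter_upwards [h1, h2] with m' h1 h2 hm'
  obtain ⟨z, hz1, hz2⟩ := h1
  have := hm' z hz1
  have hm'' : m' ∈ T {z} := this ▸ subset_T _ rfl
  exact disjoint_left.1 hUV (subset_closure (hz2 hm'')) (subset_closure h2)

theorem Mn_T {m : S} (hm : m ∈ Mn S) : T {m} ⊆ Mn S := by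
  intro y hy z hz
  rw [hm y hy] at hz ⊢
  exact hm z hz

theorem Mn_preconnected : IsPreconnected (Mn S) := by
  rw [isPreconnected_iff_subset_of_fully_disjoint_closed (isClosed_Mn hc)]
  intro P R hP hR hPR hd
  by_contra hcon
  push Not at hcon
  obtain ⟨hcP, hcR⟩ := hcon
  obtain ⟨b, hbM, hbP⟩ := not_subset.1 hcP
  obtain ⟨a, haM, haR⟩ := not_subset.1 hcR
  have hbR : b ∈ R := (hPR hbM).resolve_left hbP
  have haP : a ∈ P := (hPR haM).resolve_right haR
  have hTP : ∀ m ∈ Mn S, m ∈ P → T {m} ⊆ P := by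
    intro m hm hmP
    rcases (isPreconnected_iff_subset_of_fully_disjoint_closed (isClosed_T _)).1
      (T_preconnected hc m) P R hP hR ((Mn_T hc hm).trans hPR) hd with h | h
    · exact h
    · exact absurd (h (subset_T _ rfl)) (disjoint_left.1 hd hmP)
  have hTR : ∀ m ∈ Mn S, m ∈ R → T {m} ⊆ R := by
    intro m hm hmR
    rcases (isPreconnected_iff_subset_of_fully_disjoint_closed (isClosed_T _)).1
      (T_preconnected hc m) P R hP hR ((Mn_T hc hm).trans hPR) hd with h | h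
    · exact absurd (h (subset_T _ rfl)) (disjoint_right.1 hd hmR)
    · exact h
  set SP : Set S := {x | (T {x} ∩ (Mn S ∩ P)).Nonempty} with hSP
  have hclosed : IsClosed SP := by
    rw [← isOpen_compl_iff, isOpen_iff_eventually]
    intro x hx
    have hx' : T {x} ⊆ (Mn S ∩ P)ᶜ := by
      intro y hy hyP
      exact hx ⟨y, hy, hyP⟩
    filter_upwards [usc1 hc x ((isClosed_Mn hc).inter hP).isOpen_compl hx'] with y hy
    rintro ⟨z, hz1, hz2⟩
    exact hy hz1 hz2
  have hopen : IsOpen SP := by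
    rw [isOpen_iff_eventually]
    rintro x ⟨m, hm1, hm2, hm3⟩
    have hO : IsOpen {z : S | T {z} ⊆ Rᶜ} :=
      isOpen_iff_eventually.2 fun z hz => usc1 hc z hR.isOpen_compl hz
    have hmO : T {m} ⊆ Rᶜ := (hTP m hm2 hm3).trans (subset_compl_iff_disjoint_right.2 hd)
    filter_upwards [lsc1 hc x hO ⟨m, hm1, hmO⟩] with x' hx'
    obtain ⟨y, hy1, hy2⟩ := hx'
    obtain ⟨m', hm'1, hm'2⟩ := exists_min hc y
    refine ⟨m', T_sub hc hy1 hm'1, hm'2, ?_⟩
    exact (hPR hm'2).resolve_right (hy2 hm'1)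
  have huniv : SP = univ := IsClopen.eq_univ ⟨hclosed, hopen⟩ ⟨a, a, subset_T _ rfl, haM, haP⟩
  have hb : b ∈ SP := huniv ▸ mem_univ b
  obtain ⟨m, hm1, hm2, hm3⟩ := hb
  exact disjoint_left.1 hd hm3 (hTR b hbM hbR hm1)

/-- Main symmetry theorem. -/
theorem all_min (p : S) : p ∈ Mn S := by
  by_contra hp
  obtain ⟨U, V, hU, hV, hMU, hpV, hUV⟩ := sep_nhds (isClosed_Mn hc) (isClosed_singleton (x := p))
    (disjoint_singleton_right.2 hp)
  set N : Set S := {x | T {x} ⊆ closure U} with hN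
  have hMN : Mn S ⊆ N := fun m hm => (Mn_T hc hm).trans (hMU.trans subset_closure)
  have hNc : IsClosed N := by
    rw [← isOpen_compl_iff, isOpen_iff_eventually]
    intro x hx
    obtain ⟨y, hy1, hy2⟩ := not_subset.1 hx
    filter_upwards [lsc1 hc x (isClosed_closure (s := U)).isOpen_compl ⟨y, hy1, hy2⟩] with x' hx'
    obtain ⟨z, hz1, hz2⟩ := hx'
    exact fun h => hz2 (h hz1)
  have hNdown : ∀ x ∈ N, T {x} ⊆ N := fun x hx y hy => (T_sub hc hy).trans hx
  obtain ⟨m, hm1, hm2⟩ := exists_min hc p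
  have hNconn : IsConnected N := by
    refine ⟨⟨m, hMN hm2⟩, isPreconnected_of_forall m ?_⟩
    intro y hy
    refine ⟨Mn S ∪ T {y}, union_subset hMN (hNdown y hy), Or.inl hm2, Or.inr (subset_T _ rfl), ?_⟩
    obtain ⟨m', hm'1, hm'2⟩ := exists_min hc y
    exact IsPreconnected.union m' hm'2 hm'1 (Mn_preconnected hc) (T_preconnected hc y)
  have hint : m ∈ interior N := by
    rw [mem_interior]
    refine ⟨{x | T {x} ⊆ U}, fun x hx => hx.trans subset_closure,
      isOpen_iff_eventually.2 fun z hz => usc1 hc z hU hz, (Mn_T hc hm2).trans hMU⟩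
  obtain ⟨z, hz1, hz2⟩ := hm1 N hNc hNconn hint
  rw [mem_singleton_iff] at hz2
  subst hz2
  exact disjoint_left.1 hUV (hz1 (subset_T _ rfl)) (subset_closure (hpV rfl))

theorem T_eq {x y : S} (h : y ∈ T {x}) : T {y} = T {x} := all_min hc x y h

theorem T_symm {x y : S} (h : y ∈ T {x}) : x ∈ T {y} := by
  rw [T_eq hc h]; exact subset_T _ rfl

theorem indecomposable_of_interior {p : S} (hp : (interior (T {p})).Nonempty) (x : S) :
    T {x} = univ := by
  have heq : T {p} = {x : S | (T {x} ∩ interior (T {p})).Nonempty} := by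
    ext x
    constructor
    · intro hx
      rw [mem_ofPred_eq, T_eq hc hx]
      exact ⟨hp.some, interior_subset hp.some_mem, hp.some_mem⟩
    · rintro ⟨y, hy1, hy2⟩
      have h1 := T_eq hc hy1
      have h2 := T_eq hc (interior_subset hy2)
      rw [← h2, h1]
      exact subset_T _ rfl
  have hopen : IsOpen (T {p}) := by
    rw [heq]
    exact isOpen_iff_eventually.2 fun x hx => lsc1 hc x isOpen_interior hx
  have huniv : T {p} = univ := IsClopen.eq_univ ⟨isClosed_T _, hopen⟩ ⟨p, subset_T _ rfl⟩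
  have hx : x ∈ T {p} := huniv ▸ mem_univ x
  rw [T_eq hc hx, huniv]

end sym

end Pool.Agent.TH802.JonesT
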