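import Pool.Agent.TH802.JonesT.Basic

set_option autoImplicit false
set_option linter.unusedSectionVars false
open Set Topology

namespace Pool.Agent.TH802.JonesT

variable {S : Type*} [TopologicalSpace S]

/-- The Vietoris topology on the power set. -/
def vietoris (S : Type*) [TopologicalSpace S] : TopologicalSpace (Set S) :=
  TopologicalSpace.generateFrom
    ({𝒰 : Set (Set S) | ∃ U : Set S, IsOpen U ∧ 𝒰 = {A : Set S | A ⊆ U}} ∪
     {𝒰 : Set (Set S) | ∃ U : Set S, IsOpen U ∧ 𝒰 = {A : Set S | (A ∩ U).Nonempty}})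

theorem vsub_open {U : Set S} (hU : IsOpen U) : IsOpen[vietoris S] {A : Set S | A ⊆ U} :=
  TopologicalSpace.isOpen_generateFrom_of_mem (Or.inl ⟨U, hU, rfl⟩)

theorem vmeet_open {U : Set S} (hU : IsOpen U) : IsOpen[vietoris S] {A : Set S | (A ∩ U).Nonempty} :=
  TopologicalSpace.isOpen_generateFrom_of_mem (Or.inr ⟨U, hU, rfl⟩)

theorem tendsto_insert (F : Set S) (b : S) :
    Filter.Tendsto (fun b' => insert b' F) (𝓝 b) (@nhds _ (vietoris S) (insert b F)) := by
  rw [vietoris, TopologicalSpace.tendsto_nhds_generateFrom_iff]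
  rintro 𝒰 (⟨U, hU, rfl⟩ | ⟨U, hU, rfl⟩) hb
  · have h1 : b ∈ U := hb (mem_insert _ _)
    filter_upwards [hU.mem_nhds h1] with b' hb'
    exact insert_subset hb' ((subset_insert _ _).trans hb)
  · obtain ⟨x, hx1, hx2⟩ := hb
    rcases hx1 with rfl | hx1
    · filter_upwards [hU.mem_nhds hx2] with b' hb'
      exact ⟨b', mem_insert _ _, hb'⟩
    · exact Filter.Eventually.of_forall fun b' => ⟨x, mem_insert_of_mem _ hx1, hx2⟩

theorem tendsto_finite {A D : Set S} (hDA : D ⊆ A) (hAD : A ⊆ closure D) :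
    Filter.Tendsto (fun F : Finset D => ((↑) '' (F : Set D) : Set S)) Filter.atTop
      (@nhds _ (vietoris S) A) := by
  classical
  rw [vietoris, TopologicalSpace.tendsto_nhds_generateFrom_iff]
  rintro 𝒰 (⟨U, hU, rfl⟩ | ⟨U, hU, rfl⟩) hA
  · refine Filter.Eventually.of_forall fun F => ?_
    rintro _ ⟨x, _, rfl⟩
    exact hA (hDA x.2)
  · obtain ⟨x, hx1, hx2⟩ := hA
    obtain ⟨d, hd1, hd2⟩ := mem_closure_iff.1 (hAD hx1) U hU hx2
    filter_upwards [Filter.eventually_ge_atTop ({⟨d, hd2⟩} : Finset D)] with F hF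
    exact ⟨d, ⟨⟨d, hd2⟩, Finset.mem_coe.2 (hF (Finset.mem_singleton_self _)), rfl⟩, hd1⟩

theorem TC_of_continuousOn [T1Space S]
    (h : @ContinuousOn (Set S) (Set S) (vietoris S) (vietoris S) T
      {A : Set S | IsClosed A ∧ A.Nonempty}) : TC S := by
  classical
  letI := vietoris S
  have hcomp : ∀ (F : Set S) (b : S), F.Finite →
      Filter.Tendsto (fun b' => T (insert b' F)) (𝓝 b) (𝓝 (T (insert b F))) := by
    intro F b hF
    have h1 := h (insert b F) ⟨(hF.insert b).isClosed, ⟨b, mem_insert _ _⟩⟩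
    refine h1.tendsto.comp (tendsto_nhdsWithin_iff.2 ⟨tendsto_insert F b, ?_⟩)
    exact Filter.Eventually.of_forall fun b' => ⟨(hF.insert b').isClosed, ⟨b', mem_insert _ _⟩⟩
  refine ⟨?_, ?_, ?_⟩
  · intro A D G hA hAne hDA hAD hG hAG
    have h1 := h A ⟨hA, hAne⟩
    have hDne : D.Nonempty := closure_nonempty_iff.1 (hAne.mono hAD)
    obtain ⟨d, hd⟩ := hDne
    have h2 : Filter.Tendsto (fun F : Finset D => T ((↑) '' (F : Set D) : Set S)) Filter.atTop
        (𝓝 (T A)) := by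
      refine h1.tendsto.comp (tendsto_nhdsWithin_iff.2 ⟨tendsto_finite hDA hAD, ?_⟩)
      filter_upwards [Filter.eventually_ge_atTop ({⟨d, hd⟩} : Finset D)] with F hF
      exact ⟨((F : Set D).toFinite.image _).isClosed,
        ⟨d, ⟨⟨d, hd⟩, Finset.mem_coe.2 (hF (Finset.mem_singleton_self _)), rfl⟩⟩⟩
    have h3 := h2 ((vmeet_open hG).mem_nhds hAG)
    have h4 := (Filter.eventually_ge_atTop ({⟨d, hd⟩} : Finset D)).and h3
    obtain ⟨F, hF1, hF2⟩ := h4.exists
    have hF2' : (T (((↑) : D → S) '' (F : Set D)) ∩ G).Nonempty := hF2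
    exact ⟨((↑) : D → S) '' (F : Set D), (F : Set D).toFinite.image _,
      ⟨d, ⟨⟨d, hd⟩, Finset.mem_coe.2 (hF1 (Finset.mem_singleton_self _)), rfl⟩⟩,
      by rintro _ ⟨x, _, rfl⟩; exact x.2, hF2'⟩
  · intro F b G hF hG hsub
    exact (hcomp F b hF) ((vsub_open hG).mem_nhds hsub)
  · intro F b G hF hG hsub
    exact (hcomp F b hF) ((vmeet_open hG).mem_nhds hsub)

end Pool.Agent.TH802.JonesT
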