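import Pool.Agent.TH802.JonesT.Pairs
import Pool.Agent.TH802.JonesT.Viet

set_option autoImplicit false
set_option linter.unusedSectionVars false
open Set Topology

namespace Pool.Agent.TH802.JonesT

variable {S : Type*} [TopologicalSpace S] [CompactSpace S] [T2Space S] [ConnectedSpace S]
variable (hc : TC S)
include hc

theorem step {F : Set S} (hF : F.Finite) (hne : 2 ≤ F.ncard)
    (ih : ∀ G : Set S, G.Finite → G.ncard ≤ F.ncard → T G ⊆ ⋃ x ∈ G, T {x}) (b : S) :
    T (insert b F) ⊆ T F ∪ T {b} := by
  classical
  by_cases hdup : ∃ x ∈ F, ∃ x' ∈ F, x ≠ x' ∧ T {x} = T {x'}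
  · obtain ⟨x, hx, x', hx', hxx, heq⟩ := hdup
    have h1 : insert b F ⊆ T (insert b (F \ {x'})) := by
      rintro y (rfl | hy)
      · exact subset_T _ (Or.inl rfl)
      · by_cases hyx : y = x'
        · subst hyx
          have : y ∈ T {x} := heq ▸ subset_T _ rfl
          have hxm : x ∈ insert b (F \ {y}) := Or.inr ⟨hx, hxx⟩
          exact T_mono (singleton_subset_iff.2 hxm) this
        · exact subset_T _ (Or.inr ⟨hy, hyx⟩)
    have h2 : T (insert b F) ⊆ T (insert b (F \ {x'})) := (T_mono h1).trans (T_T hc _)
    have hfin : (insert b (F \ {x'})).Finite := (hF.subset sdiff_subset).insert b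
    have hcard : (insert b (F \ {x'})).ncard ≤ F.ncard := by
      refine (Set.ncard_insert_le _ _).trans ?_
      rw [Set.ncard_sdiff_singleton_of_mem hx']
      omega
    refine h2.trans ((ih _ hfin hcard).trans ?_)
    intro z hz
    obtain ⟨y, hy, hzy⟩ := mem_iUnion₂.1 hz
    rcases hy with rfl | hy
    · exact Or.inr hzy
    · exact Or.inl (T_mono (singleton_subset_iff.2 hy.1) hzy)
  · push Not at hdup
    have hTF := ih F hF le_rfl
    have hopen : IsOpen {b | ¬ T (insert b F) ⊆ T F ∪ T {b}} := bad_open hc hF
    have hopen' : IsOpen {b | T (insert b F) ⊆ T F ∪ T {b}} := by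
      rw [isOpen_iff_eventually]
      intro b hb
      by_cases hbF : b ∈ T F
      · obtain ⟨a, ha, hba⟩ := mem_iUnion₂.1 (hTF hbF)
        have hR : (F \ {a}).Finite := hF.subset sdiff_subset
        have hRc : (F \ {a}).ncard ≤ F.ncard := Set.ncard_le_ncard sdiff_subset hF
        have hTR := ih _ hR hRc
        have hd : Disjoint (T {a}) (T (F \ {a})) := by
          rw [disjoint_left]
          intro x hx hx'
          obtain ⟨y, hy, hxy⟩ := mem_iUnion₂.1 (hTR hx')
          exact hdup a ha y hy.1 (fun h => hy.2 h.symm) (by rw [← T_eq hc hx, T_eq hc hxy])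
        obtain ⟨U, V, hU, hV, haU, hRV, hUV⟩ := sep_nhds (isClosed_T {a}) (isClosed_T (F \ {a})) hd
        have hTF' : T F ⊆ T {a} ∪ T (F \ {a}) := by
          intro x hx
          obtain ⟨y, hy, hxy⟩ := mem_iUnion₂.1 (hTF hx)
          by_cases hya : y = a
          · subst hya; exact Or.inl hxy
          ·
            have hym : y ∈ F \ {a} := ⟨hy, hya⟩
            exact Or.inr (T_mono (singleton_subset_iff.2 hym) hxy)
        have hb' : T (insert b F) ⊆ U ∪ V := by
          intro x hx
          have : x ∈ T F := by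
            rcases hb hx with h | h
            · exact h
            · exact T_T hc _ (T_mono (singleton_subset_iff.2 hbF) h)
          exact (union_subset_union haU hRV) (hTF' this)
        filter_upwards [hc.usc F b (U ∪ V) hF (hU.union hV) hb', hU.mem_nhds (haU hba)] with b' h1 h2
        have hset : ({a} ∪ {b'}) ∪ (F \ {a}) = insert b' F := by
          ext x
          simp only [mem_union, mem_singleton_iff, mem_sdiff, mem_insert_iff]
          constructor
          · rintro ((rfl | rfl) | h)
            · exact Or.inr ha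
            · exact Or.inl rfl
            · exact Or.inr h.1
          · rintro (rfl | h)
            · exact Or.inl (Or.inr rfl)
            · by_cases hxa : x = a
              · exact Or.inl (Or.inl hxa)
              · exact Or.inr ⟨h, hxa⟩
        have h3 : T (({a} ∪ {b'}) ∪ (F \ {a})) = T ({a} ∪ {b'}) ∪ T (F \ {a}) := by
          apply sep hU hV hUV
          · rwa [hset]
          · exact union_subset (singleton_subset_iff.2 (haU (subset_T _ rfl)))
              (singleton_subset_iff.2 h2)
          · exact (subset_T _).trans hRV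
        rw [hset] at h3
        change T (insert b' F) ⊆ _
        rw [h3]
        apply union_subset
        · have h4 : T ({a} ∪ {b'}) ⊆ T {a} ∪ T {b'} := by
            rw [union_comm]
            exact pair_sub hc a b'
          exact h4.trans (union_subset_union_left _ (T_mono (singleton_subset_iff.2 ha)))
        · exact (T_mono sdiff_subset).trans subset_union_left
      · have hd : Disjoint (T F) (T {b}) := by
          rw [disjoint_left]
          intro x hx hx'
          obtain ⟨y, hy, hxy⟩ := mem_iUnion₂.1 (hTF hx)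
          apply hbF
          apply T_mono (singleton_subset_iff.2 hy)
          rw [← T_eq hc hxy, T_eq hc hx']
          exact subset_T _ rfl
        obtain ⟨U, V, hU, hV, hFU, hbV, hUV⟩ := sep_nhds (isClosed_T F) (isClosed_T {b}) hd
        have hb' : T (insert b F) ⊆ U ∪ V := hb.trans (union_subset_union hFU hbV)
        filter_upwards [hc.usc F b (U ∪ V) hF (hU.union hV) hb',
          hV.mem_nhds (hbV (subset_T _ rfl))] with b' h1 h2
        have h3 : T (F ∪ {b'}) = T F ∪ T {b'} := by
          apply sep hU hV hUV
          · rwa [union_singleton]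
          · exact (subset_T _).trans hFU
          · exact singleton_subset_iff.2 h2
        rw [union_singleton] at h3
        rw [h3]
    have hcl : IsClopen {b | T (insert b F) ⊆ T F ∪ T {b}} := by
      refine ⟨?_, hopen'⟩
      rw [← isOpen_compl_iff]
      exact hopen
    have hne' : F.Nonempty := by
      rw [← Set.ncard_pos hF]; omega
    obtain ⟨a, ha⟩ := hne'
    have huniv := hcl.eq_univ ⟨a, by
      change T (insert a F) ⊆ _
      rw [insert_eq_of_mem ha]
      exact subset_union_left⟩
    have : b ∈ {b | T (insert b F) ⊆ T F ∪ T {b}} := huniv ▸ mem_univ b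
    exact this

theorem fin_sub : ∀ (n : ℕ) (F : Set S), F.Finite → F.ncard ≤ n → T F ⊆ ⋃ x ∈ F, T {x} := by
  intro n
  induction n with
  | zero =>
    intro F hF hn
    have : F = ∅ := by
      rw [← Set.ncard_eq_zero hF]; omega
    subst this
    rw [T_empty]
    exact empty_subset _
  | succ n ih =>
    intro F hF hn
    by_cases hlt : F.ncard ≤ n
    · exact ih F hF hlt
    have hFn : F.ncard = n + 1 := by omega
    have hne : F.Nonempty := by
      rw [← Set.ncard_pos hF]; omega
    obtain ⟨b, hb⟩ := hne
    have hF' : (F \ {b}).Finite := hF.subset sdiff_subset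
    have hcard : (F \ {b}).ncard = n := by
      rw [Set.ncard_sdiff_singleton_of_mem hb, hFn]; rfl
    have hins : insert b (F \ {b}) = F := by
      rw [insert_sdiff_singleton, insert_eq_of_mem hb]
    have hfinal : T F ⊆ T (F \ {b}) ∪ T {b} := by
      by_cases h2 : 2 ≤ n
      · have := step hc hF' (by rw [hcard]; exact h2) (fun G hG hGn => ih G hG (by omega)) b
        rwa [hins] at this
      · by_cases h0 : n = 0
        · have : F \ {b} = ∅ := by
            rw [← Set.ncard_eq_zero hF']; omega
          rw [this] at hins ⊢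
          rw [← hins]
          rw [insert_empty_eq]
          exact subset_union_right
        · have h1 : (F \ {b}).ncard = 1 := by omega
          obtain ⟨a, ha⟩ := Set.ncard_eq_one.1 h1
          rw [ha] at hins ⊢
          rw [← hins]
          exact pair_sub hc a b
    refine hfinal.trans ?_
    intro x hx
    rcases hx with hx | hx
    · obtain ⟨y, hy, hxy⟩ := mem_iUnion₂.1 (ih _ hF' (by omega) hx)
      exact mem_iUnion₂.2 ⟨y, hy.1, hxy⟩
    · exact mem_iUnion₂.2 ⟨b, hb, hx⟩

/-- `T` of a closed set is the union of the `T` of its points. -/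
theorem closed_sub {A : Set S} (hA : IsClosed A) : T A ⊆ ⋃ x ∈ A, T {x} := by
  rcases A.eq_empty_or_nonempty with rfl | hne
  · rw [T_empty]; exact empty_subset _
  intro q hq
  by_contra hcon
  have hO : IsOpen {x : S | T {x} ⊆ Aᶜ} :=
    isOpen_iff_eventually.2 fun z hz => usc1 hc z hA.isOpen_compl hz
  have hqO : T {q} ⊆ Aᶜ := by
    intro a ha haA
    exact hcon (mem_iUnion₂.2 ⟨a, haA, T_symm hc ha⟩)
  obtain ⟨F, hF1, _, hF3, x, hx1, hx2⟩ := hc.dens A A _ hA hne Subset.rfl subset_closure hO
    ⟨q, hq, hqO⟩
  obtain ⟨f, hf, hxf⟩ := mem_iUnion₂.1 (fin_sub hc F.ncard F hF1 le_rfl hx1)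
  exact hx2 (T_symm hc hxf) (hF3 hf)

theorem additive {A B : Set S} (hA : IsClosed A) (hB : IsClosed B) : T (A ∪ B) = T A ∪ T B := by
  apply Subset.antisymm
  · intro x hx
    obtain ⟨y, hy, hxy⟩ := mem_iUnion₂.1 (closed_sub hc (hA.union hB) hx)
    rcases hy with hy | hy
    · exact Or.inl (T_mono (singleton_subset_iff.2 hy) hxy)
    · exact Or.inr (T_mono (singleton_subset_iff.2 hy) hxy)
  · exact union_subset (T_mono subset_union_left) (T_mono subset_union_right)

theorem quot_lc (r : S → S → Prop) (hr : ∀ p q : S, r p q ↔ T {p} = T {q}) :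
    LocallyConnectedSpace (Quot r) := by
  rw [locallyConnectedSpace_iff_connected_subsets]
  intro x U hU
  obtain ⟨p, rfl⟩ := Quot.exists_rep x
  obtain ⟨U', hU'U, hU'o, hpU'⟩ := mem_nhds_iff.1 hU
  have hcont : Continuous (Quot.mk r) := continuous_quot_mk
  set O : Set S := (Quot.mk r) ⁻¹' U' with hO
  have hOo : IsOpen O := hU'o.preimage hcont
  have hsat : ∀ y z : S, z ∈ T {y} → z ∈ O → y ∈ O := by
    intro y z hz hzO
    have : Quot.mk r y = Quot.mk r z := Quot.sound ((hr y z).2 (T_eq hc hz).symm)
    change Quot.mk r y ∈ U'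
    rw [this]
    exact hzO
  have hpT : p ∉ T Oᶜ := by
    intro h
    obtain ⟨y, hy, hpy⟩ := mem_iUnion₂.1 (closed_sub hc hOo.isClosed_compl h)
    exact hy (hsat y p hpy hpU')
  obtain ⟨W, hW1, hW2, hW3, hW4⟩ := not_mem_T.1 hpT
  have hWO : W ⊆ O := by
    intro w hw
    by_contra hwO
    exact (eq_empty_iff_forall_notMem.1 hW4) w ⟨hw, hwO⟩
  refine ⟨Quot.mk r '' W, ?_, hW2.2.image _ hcont.continuousOn, ?_⟩
  · have himg : (Quot.mk r) ⁻¹' (Quot.mk r '' interior W) = {x : S | (T {x} ∩ interior W).Nonempty} := by
      ext x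
      constructor
      · rintro ⟨w, hw, hwx⟩
        have hequiv : ∀ a b : S, Quot.mk r a = Quot.mk r b → T {a} = T {b} := by
          intro a b hab
          have h1 : Quot.lift (fun a => T {a}) (fun a b h => (hr a b).1 h) (Quot.mk r a) =
            Quot.lift (fun a => T {a}) (fun a b h => (hr a b).1 h) (Quot.mk r b) := by rw [hab]
          exact h1
        have := hequiv _ _ hwx
        refine ⟨w, ?_, hw⟩
        rw [← this]
        exact subset_T _ rfl
      · rintro ⟨w, hw1, hw2⟩
        exact ⟨w, hw2, Quot.sound ((hr w x).2 (T_eq hc hw1))⟩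
    have hopen : IsOpen (Quot.mk r '' interior W) := by
      change IsOpen ((Quot.mk r) ⁻¹' (Quot.mk r '' interior W))
      rw [himg]
      exact isOpen_iff_eventually.2 fun x hx => lsc1 hc x isOpen_interior hx
    exact Filter.mem_of_superset (hopen.mem_nhds ⟨p, hW3, rfl⟩) (image_mono interior_subset)
  · rintro _ ⟨w, hw, rfl⟩
    exact hU'U (hWO hw)

end Pool.Agent.TH802.JonesT
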