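import Pool.Agent.TH802.JonesT.Basic

set_option autoImplicit false
set_option linter.unusedSectionVars false
open Set Topology

namespace Pool.Agent.TH802.JonesT

variable {S : Type*} [TopologicalSpace S] [CompactSpace S] [T2Space S] [ConnectedSpace S]

/-- gluing lemma: deleting one side of a separating connected set keeps connectedness. -/
theorem side {W C P R : Set S} (hWc : IsClosed W) (hW : IsPreconnected W) (hC : IsPreconnected C)
    (hCne : C.Nonempty) (hCW : C ⊆ W) (hP : IsOpen P) (hR : IsOpen R) (hcov : W ⊆ C ∪ P ∪ R)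
    (hCP : Disjoint C P) (hCR : Disjoint C R) (hPR : Disjoint P R) : IsPreconnected (W ∩ Rᶜ) := by
  rw [isPreconnected_iff_subset_of_fully_disjoint_closed (hWc.inter hR.isClosed_compl)]
  have hCX : C ⊆ W ∩ Rᶜ := fun x hx => ⟨hCW hx, disjoint_left.1 hCR hx⟩
  have key : ∀ u v : Set S, IsClosed u → IsClosed v → W ∩ Rᶜ ⊆ u ∪ v → Disjoint u v → C ⊆ u →
      W ∩ Rᶜ ⊆ u := by
    intro u v hu hv huv hd hCu
    have h1 : IsClosed ((W ∩ Rᶜ) ∩ v) := (hWc.inter hR.isClosed_compl).inter hv
    have h2 : IsClosed (((W ∩ Rᶜ) ∩ u) ∪ (W ∩ Pᶜ)) :=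
      ((hWc.inter hR.isClosed_compl).inter hu).union (hWc.inter hP.isClosed_compl)
    have h3 : W ⊆ ((W ∩ Rᶜ) ∩ v) ∪ (((W ∩ Rᶜ) ∩ u) ∪ (W ∩ Pᶜ)) := by
      intro w hw
      by_cases hwP : w ∈ P
      · have hwX : w ∈ W ∩ Rᶜ := ⟨hw, disjoint_left.1 hPR hwP⟩
        rcases huv hwX with h | h
        · exact Or.inr (Or.inl ⟨hwX, h⟩)
        · exact Or.inl ⟨hwX, h⟩
      · exact Or.inr (Or.inr ⟨hw, hwP⟩)
    have h4 : Disjoint ((W ∩ Rᶜ) ∩ v) (((W ∩ Rᶜ) ∩ u) ∪ (W ∩ Pᶜ)) := by
      rw [disjoint_left]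
      rintro x ⟨⟨hxW, hxR⟩, hxv⟩ (⟨_, hxu⟩ | ⟨_, hxP⟩)
      · exact disjoint_left.1 hd hxu hxv
      · rcases hcov hxW with (h | h) | h
        · exact disjoint_left.1 hd (hCu h) hxv
        · exact hxP h
        · exact hxR h
    rcases (isPreconnected_iff_subset_of_fully_disjoint_closed hWc).1 hW _ _ h1 h2 h3 h4 with h | h
    · obtain ⟨c, hc⟩ := hCne
      exact absurd (h (hCW hc)).2 (disjoint_left.1 hd (hCu hc))
    · intro x hx
      rcases huv hx with h' | h'
      · exact h'
      · exact absurd (h hx.1) (disjoint_left.1 h4 ⟨hx, h'⟩)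
  intro u v hu hv huv hd
  rcases (isPreconnected_iff_subset_of_disjoint_closed.1 hC) u v hu hv (hCX.trans huv)
    (by rw [disjoint_iff_inter_eq_empty.1 hd, inter_empty]) with h | h
  · left; exact key u v hu hv huv hd h
  · right; exact key v u hv hu (by rwa [union_comm]) hd.symm h

variable (hc : TC S)
include hc

theorem int_T {W : Set S} {c : S} (hWc : IsClosed W) (hW : IsConnected W) (h : c ∈ interior W) :
    T {c} ⊆ interior W := by
  intro y hy
  by_contra hyW
  have h1 : y ∈ closure Wᶜ := by rw [closure_compl]; exact hyW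
  have h2 : T {y} ⊆ (interior W)ᶜ := (T_mono (singleton_subset_iff.2 h1)).trans (T_compl hc hWc hW)
  exact h2 (T_symm hc hy) h

theorem disj_T {a b : S} (h : b ∉ T {a}) : Disjoint (T {a}) (T {b}) := by
  rw [disjoint_left]
  intro x hx hx'
  apply h
  rw [← T_eq hc hx, T_eq hc hx']
  exact subset_T _ rfl

theorem pair_congr {a b b' : S} (h : T {b} = T {b'}) : T (insert b {a}) = T (insert b' {a}) := by
  have key : ∀ b b' : S, T {b} = T {b'} → T (insert b {a}) ⊆ T (insert b' {a}) := by
    intro b b' h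
    have h1 : (insert b {a} : Set S) ⊆ T (insert b' {a}) := by
      intro x hx
      rcases hx with rfl | hx
      · exact T_mono (singleton_subset_iff.2 (mem_insert _ _)) (h ▸ subset_T _ rfl : x ∈ T {b'})
      · exact subset_T _ (Or.inr hx)
    exact (T_mono h1).trans (T_T hc _)
  exact Subset.antisymm (key _ _ h) (key _ _ h.symm)

theorem pair_of_mem {a b : S} (h : b ∈ T {a}) : T (insert b {a}) = T {a} := by
  apply Subset.antisymm
  · refine (T_mono ?_).trans (T_T hc _)
    intro x hx
    rcases hx with rfl | hx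
    · exact h
    · exact subset_T _ hx
  · exact T_mono (subset_insert _ _)

/-- bad partners of `a` -/
def H (a : S) : Set S := {b | ¬ T (insert b {a}) ⊆ T {a} ∪ T {b}}

/-- openness of the set of bad partners, in general form -/
theorem bad_open {F : Set S} (hF : F.Finite) : IsOpen {b | ¬ T (insert b F) ⊆ T F ∪ T {b}} := by
  rw [isOpen_iff_eventually]
  intro b hb
  obtain ⟨c, hc1, hc2⟩ := not_subset.1 hb
  have hcF : c ∉ T F := fun h => hc2 (Or.inl h)
  have hcb : b ∉ T {c} := fun h => hc2 (Or.inr (T_symm hc h))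
  obtain ⟨U, V, hU, hV, hcU, hbV, hUV⟩ := sep_nhds (isClosed_T {c}) (isClosed_singleton (x := b))
    (disjoint_singleton_right.2 hcb)
  have hO : IsOpen ({z : S | T {z} ⊆ U} ∩ (T F)ᶜ) :=
    (isOpen_iff_eventually.2 fun z hz => usc1 hc z hU hz).inter (isClosed_T _).isOpen_compl
  filter_upwards [hc.lsc F b _ hF hO ⟨c, hc1, hcU, hcF⟩, hV.mem_nhds (hbV rfl)] with b' h1 h2
  obtain ⟨z, hz1, hz2, hz3⟩ := h1
  intro hcon
  rcases hcon hz1 with h | h
  · exact hz3 h
  · exact disjoint_left.1 hUV (subset_closure (hz2 (T_symm hc h))) (subset_closure h2)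

theorem H_open (a : S) : IsOpen (H a) := bad_open hc (finite_singleton a)

theorem H_disj (a : S) : Disjoint (T {a}) (H a) := by
  rw [disjoint_left]
  intro b hb hbH
  apply hbH
  rw [pair_of_mem hc hb]
  exact subset_union_left

theorem H_symm {a b : S} (h : b ∈ H a) : a ∈ H b := by
  intro hcon
  apply h
  rw [union_comm]
  rwa [pair_comm]

/-- `E(a) \ T{a}` is open. -/
theorem E_open (a : S) : IsOpen ((H a)ᶜ ∩ (T {a})ᶜ) := by
  rw [isOpen_iff_eventually]
  rintro b ⟨hb1, hb2⟩
  have hb1' : T (insert b {a}) ⊆ T {a} ∪ T {b} := by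
    by_contra h; exact hb1 h
  obtain ⟨U, V, hU, hV, haU, hbV, hUV⟩ := sep_nhds (isClosed_T {a}) (isClosed_T {b}) (disj_T hc hb2)
  have h1 := hc.usc {a} b (U ∪ V) (finite_singleton a) (hU.union hV)
    (hb1'.trans (union_subset_union haU hbV))
  filter_upwards [h1, hV.mem_nhds (hbV (subset_T _ rfl))] with b' h1 h2
  have h3 : T ({a} ∪ {b'}) = T {a} ∪ T {b'} := by
    apply sep hU hV hUV
    · rwa [union_comm]
    · exact singleton_subset_iff.2 (haU (subset_T _ rfl))
    · exact singleton_subset_iff.2 h2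
  constructor
  · intro hcon
    apply hcon
    rw [← h3, union_comm]
    rfl
  · intro h
    exact disjoint_left.1 hUV (subset_closure (haU h)) (subset_closure h2)

theorem pair_preconnected {a b : S} (hb : b ∈ H a) : IsPreconnected (T (insert b {a})) := by
  rw [isPreconnected_iff_subset_of_fully_disjoint_closed (isClosed_T _)]
  -- if both points are in `v`, done
  have key : ∀ u v : Set S, IsClosed u → IsClosed v → T (insert b {a}) ⊆ u ∪ v → Disjoint u v →
      a ∈ v → b ∈ v → T (insert b {a}) ⊆ v := by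
    intro u v hu hv huv hd hav hbv
    obtain ⟨U, V, hU, hV, huU, hvV, hUV⟩ := sep_nhds hu hv hd
    have h1 : T (∅ ∪ insert b {a}) ⊆ U ∪ V := by
      rw [empty_union]
      exact huv.trans (union_subset_union huU hvV)
    have h2 := gap' hU hV hUV h1 (insert_subset (hvV hbv) (singleton_subset_iff.2 (hvV hav)))
    rw [empty_union, T_empty] at h2
    intro y hy
    rcases huv hy with h | h
    · exact absurd (h2 ⟨hy, huU h⟩) (notMem_empty _)
    · exact h
  have key2 : ∀ u v : Set S, IsClosed u → IsClosed v → T (insert b {a}) ⊆ u ∪ v → Disjoint u v →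
      a ∈ u → b ∈ v → False := by
    intro u v hu hv huv hd hau hbv
    obtain ⟨U, V, hU, hV, huU, hvV, hUV⟩ := sep_nhds hu hv hd
    apply hb
    have h1 : T ({a} ∪ {b}) = T {a} ∪ T {b} := by
      apply sep hU hV hUV
      · rw [union_comm]
        exact huv.trans (union_subset_union huU hvV)
      · exact singleton_subset_iff.2 (huU hau)
      · exact singleton_subset_iff.2 (hvV hbv)
    rw [← h1, union_comm]
    rfl
  have ha' : a ∈ T (insert b {a}) := subset_T _ (Or.inr rfl)
  have hb' : b ∈ T (insert b {a}) := subset_T _ (Or.inl rfl)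
  intro u v hu hv huv hd
  rcases huv ha' with h | h <;> rcases huv hb' with h' | h'
  · left; exact key v u hv hu (by rwa [union_comm]) hd.symm h h'
  · exact (key2 u v hu hv huv hd h h').elim
  · exact (key2 v u hv hu (by rwa [union_comm]) hd.symm h h').elim
  · right; exact key u v hu hv huv hd h h'

/-- the crucial step -/
theorem no_inner_bad {a b c : S} (hcT : c ∈ T (insert b {a})) (hcH : c ∈ H a)
    (hcb : c ∉ T {b}) : False := by
  have haH : a ∈ H c := H_symm hc hcH
  have hbc : b ∉ T {c} := fun h => hcb (T_symm hc h)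
  have hac : a ∉ T {c} := fun h => disjoint_left.1 (H_disj hc c) h haH
  have hca : c ∉ T {a} := fun h => hac (T_symm hc h)
  set C := T {c} with hC
  set Hc := H c with hHc
  set E := (H c)ᶜ ∩ (T {c})ᶜ with hE
  have hHo : IsOpen Hc := H_open hc c
  have hEo : IsOpen E := E_open hc c
  have hCH : Disjoint C Hc := H_disj hc c
  have hCE : Disjoint C E := by
    rw [disjoint_left]; intro x hx hx'; exact hx'.2 hx
  have hEH : Disjoint E Hc := by
    rw [disjoint_left]; intro x hx hx'; exact hx.1 hx'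
  have hcov : ∀ x : S, x ∈ C ∪ E ∪ Hc := by
    intro x
    by_cases h1 : x ∈ Hc
    · exact Or.inr h1
    · by_cases h2 : x ∈ C
      · exact Or.inl (Or.inl h2)
      · exact Or.inl (Or.inr ⟨h1, h2⟩)
  have hCconn : IsPreconnected C := T_preconnected hc c
  have hcC : c ∈ C := subset_T _ rfl
  by_cases hbH : b ∈ Hc
  · -- both in H
    obtain ⟨V, V', hV, hV', hCV, habV, hVV⟩ := sep_nhds (isClosed_T {c})
      ((isClosed_singleton (x := a)).union (isClosed_singleton (x := b)))
      (by
        rw [disjoint_left]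
        rintro x hx (rfl | rfl)
        · exact hac hx
        · exact hbc hx)
    set N : Set S := {z | T (insert z {c}) ⊆ V} with hN
    have hNo : IsOpen N := isOpen_iff_eventually.2 fun z hz => hc.usc {c} z V (finite_singleton c) hV hz
    have hcN : c ∈ N := by
      change T (insert c {c}) ⊆ V
      rw [pair_of_mem hc (subset_T _ rfl)]
      exact hCV
    set L : Set S := {c} ∪ ⋃ z ∈ N ∩ Hc, T (insert z {c}) with hL
    have hLconn : IsPreconnected L := by
      apply isPreconnected_of_forall c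
      rintro y (rfl | hy)
      · exact ⟨{y}, subset_union_left, rfl, rfl, isPreconnected_singleton⟩
      · obtain ⟨z, hz, hyz⟩ := mem_iUnion₂.1 hy
        exact ⟨T (insert z {c}), fun x hx => Or.inr (mem_iUnion₂.2 ⟨z, hz, hx⟩),
          subset_T _ (Or.inr rfl), hyz, pair_preconnected hc hz.2⟩
    have hLV : L ⊆ V := by
      rintro x (rfl | hx)
      · exact hCV hcC
      · obtain ⟨z, hz, hxz⟩ := mem_iUnion₂.1 hx
        exact hz.1 hxz
    have hHcconn : IsPreconnected (univ ∩ Hcᶜ) :=
      side isClosed_univ isPreconnected_univ hCconn ⟨c, hcC⟩ (subset_univ _) hEo hHo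
        (fun x _ => hcov x) hCE hCH hEH
    rw [univ_inter] at hHcconn
    have hcHc : c ∈ Hcᶜ := disjoint_left.1 hCH hcC
    set K := closure L ∪ Hcᶜ with hK
    have hKconn : IsConnected K := by
      refine ⟨⟨c, Or.inr hcHc⟩, ?_⟩
      exact IsPreconnected.union c (subset_closure (Or.inl rfl)) hcHc hLconn.closure hHcconn
    have hKcl : IsClosed K := isClosed_closure.union hHo.isClosed_compl
    have hcint : c ∈ interior K := by
      rw [mem_interior]
      refine ⟨N, ?_, hNo, hcN⟩
      intro z hz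
      by_cases hzH : z ∈ Hc
      · left
        exact subset_closure (Or.inr (mem_iUnion₂.2 ⟨z, ⟨hz, hzH⟩, subset_T _ (Or.inl rfl)⟩))
      · exact Or.inr hzH
    obtain ⟨x, hx1, hx2⟩ := hcT K hKcl hKconn hcint
    have hxab : x ∈ ({a} ∪ {b} : Set S) := by
      rcases hx2 with h | h
      · exact Or.inr h
      · exact Or.inl h
    have hxH : x ∈ Hc := by
      rcases hxab with rfl | rfl
      · exact haH
      · exact hbH
    rcases hx1 with h | h
    · exact disjoint_left.1 hVV (closure_mono hLV h) (subset_closure (habV hxab))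
    · exact h hxH
  · -- a in H, b in E
    have hbE : b ∈ E := ⟨hbH, hbc⟩
    obtain ⟨Wa, ha1, ha2, ha3, ha4⟩ := not_mem_T.1 hca
    obtain ⟨Wb, hb1, hb2, hb3, hb4⟩ := not_mem_T.1 hcb
    have haW : a ∉ Wa := fun h => (eq_empty_iff_forall_notMem.1 ha4) a ⟨h, rfl⟩
    have hbW : b ∉ Wb := fun h => (eq_empty_iff_forall_notMem.1 hb4) b ⟨h, rfl⟩
    have hCWa : C ⊆ Wa := (int_T hc ha1 ha2 ha3).trans interior_subset
    have hCWb : C ⊆ Wb := (int_T hc hb1 hb2 hb3).trans interior_subset
    have h1 : IsPreconnected (Wb ∩ Hcᶜ) :=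
      side hb1 hb2.2 hCconn ⟨c, hcC⟩ hCWb hEo hHo (fun x _ => hcov x) hCE hCH hEH
    have h2 : IsPreconnected (Wa ∩ Eᶜ) :=
      side ha1 ha2.2 hCconn ⟨c, hcC⟩ hCWa hHo hEo (fun x _ => by
        rcases hcov x with (h | h) | h
        · exact Or.inl (Or.inl h)
        · exact Or.inr h
        · exact Or.inl (Or.inr h)) hCH hCE hEH.symm
    have hc1 : c ∈ Wb ∩ Hcᶜ := ⟨hCWb hcC, disjoint_left.1 hCH hcC⟩
    have hc2 : c ∈ Wa ∩ Eᶜ := ⟨hCWa hcC, disjoint_left.1 hCE hcC⟩
    set K := (Wb ∩ Hcᶜ) ∪ (Wa ∩ Eᶜ) with hK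
    have hKconn : IsConnected K := ⟨⟨c, Or.inl hc1⟩, IsPreconnected.union c hc1 hc2 h1 h2⟩
    have hKcl : IsClosed K := (hb1.inter hHo.isClosed_compl).union (ha1.inter hEo.isClosed_compl)
    have hcint : c ∈ interior K := by
      rw [mem_interior]
      refine ⟨interior Wa ∩ interior Wb, ?_, isOpen_interior.inter isOpen_interior, ha3, hb3⟩
      rintro x ⟨hx1, hx2⟩
      by_cases hxH : x ∈ Hc
      · exact Or.inr ⟨interior_subset hx1, disjoint_right.1 hEH hxH⟩
      · exact Or.inl ⟨interior_subset hx2, hxH⟩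
    obtain ⟨x, hx1, hx2⟩ := hcT K hKcl hKconn hcint
    rcases hx2 with rfl | hx2
    · rcases hx1 with h | h
      · exact hbW h.1
      · exact h.2 hbE
    · rw [mem_singleton_iff] at hx2
      subst hx2
      rcases hx1 with h | h
      · exact h.2 haH
      · exact haW h.1

theorem pair_sub (a b : S) : T (insert b {a}) ⊆ T {a} ∪ T {b} := by
  by_contra hb
  have hbH : b ∈ H a := hb
  have h1 : T (insert b {a}) ⊆ T {b} ∪ (H a)ᶜ := by
    intro c hcT
    by_cases hcH : c ∈ H a
    · left
      by_contra hcb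
      exact no_inner_bad hc hcT hcH hcb
    · exact Or.inr hcH
  have hTb : T {b} ⊆ H a := by
    intro b' hb' hcon
    apply hb
    have h2 := T_eq hc hb'
    rw [pair_congr hc h2, h2] at hcon
    exact hcon
  have hd : Disjoint (T {b}) (H a)ᶜ := disjoint_compl_right_iff_subset.2 hTb
  rcases (isPreconnected_iff_subset_of_fully_disjoint_closed (isClosed_T _)).1
    (pair_preconnected hc hbH) _ _ (isClosed_T {b}) (H_open hc a).isClosed_compl h1 hd with h | h
  · have ha : a ∈ T {b} := h (subset_T _ (Or.inr rfl))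
    exact disjoint_left.1 (H_disj hc a) (T_symm hc ha) hbH
  · exact h (subset_T _ (Or.inl rfl)) hbH

end Pool.Agent.TH802.JonesT
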